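import Pool.Agent.N929.EY.Stm

/-!
# WT: occupying and freeing one slot in a window
-/

set_option autoImplicit false

namespace Pool.Agent.N415.EY

open Pool.Agent.H976R2 Pool.Agent.H976R2.Dir Finset
open Pool.Agent.N929.EX Pool.Agent.N929.EY
open scoped Classical

noncomputable section

lemma up_one (c d : ℕ) : up 1 (c, d) = (c, d + 2) := by
  unfold up
  simp

lemma up_zero (c d : ℕ) : up 0 (c, d) = (c + 2, d + 2) := by
  unfold up
  simp

lemma up_two (c d : ℕ) : up 2 (c, d) = (c, d) := by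
  unfold up
  simp

/-- the times are determined by the square -/
lemma At_unique {w : List Dir} {q : ℤ × ℤ} {k l k' l' : ℕ} (h : At w q k l) (h' : At w q k' l') :
    k = k' ∧ l = l' := by
  obtain ⟨h1, h2⟩ := h
  obtain ⟨h1', h2'⟩ := h'
  have a1 := (h2' k (by omega)).1 ((h2 k (by omega)).2 (by omega))
  have a2 := (h2' (k + l) (by omega)).1 ((h2 (k + l) (by omega)).2 (by omega))
  have b1 := (h2 k' (by omega)).1 ((h2' k' (by omega)).2 (by omega))
  have b2 := (h2 (k' + l') (by omega)).1 ((h2' (k' + l') (by omega)).2 (by omega))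
  omega

lemma mem_DD_of {L : Finset (ℤ × ℤ)} {s : Fin 3} {T : ℕ × ℕ} {w : List Dir} {p : ℤ × ℤ} {k : ℕ}
    (hp : p ∈ L) (h : At w p k 1) (h' : In s T k 1) : p ∈ DD L s T w := by
  unfold DD
  exact mem_filter.2 ⟨hp, k, Or.inl ⟨h, h'⟩⟩

lemma notMem_OO_of {L : Finset (ℤ × ℤ)} {s : Fin 3} {T : ℕ × ℕ} {w : List Dir} {p : ℤ × ℤ} {k : ℕ}
    (h : At w p k 1) : p ∉ OO L s T w := by
  unfold Pool.Agent.N929.EX.OO
  intro hp
  obtain ⟨k', h', _⟩ := (mem_filter.1 hp).2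
  have := (At_unique h h').2
  omega

/-- a free slot in the window -/
lemma free_slot {L : Finset (ℤ × ℤ)} {a b : ℕ} {w : List Dir} {p : ℤ × ℤ}
    (h1 : p ∈ DD L 1 (a, b) w) (h2 : p ∉ OO L 1 (a, b) w) :
    p ∈ L ∧ ∃ k, At w p k 1 ∧ a < k ∧ k + 1 < b := by
  unfold DD at h1
  unfold Pool.Agent.N929.EX.OO at h2
  obtain ⟨hp, k, hk⟩ := mem_filter.1 h1
  refine ⟨hp, k, ?_⟩
  rcases hk with ⟨hA, hI⟩ | ⟨hA, hI⟩
  · refine ⟨hA, ?_⟩
    unfold In at hI
    rcases hI with ⟨h0, _⟩ | ⟨_, h3⟩ | ⟨h0, _⟩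
    · exact absurd h0 (by decide)
    · exact h3
    · exact absurd h0 (by decide)
  · exact absurd (mem_filter.2 ⟨hp, k, hA, hI⟩) h2

theorem wt (h : S_TOG) : S_WT := by
  intro L hL
  obtain ⟨f, g, hf, hg⟩ := h L hL
  have first : ∀ (a b n : ℕ) (w : List Dir) (p : ℤ × ℤ), a ≤ b → b ≤ n → w ∈ SW n →
      p ∈ DD L 1 (a, b) w → p ∉ OO L 1 (a, b) w →
      WStep L a b n w p (f w p) ∧ g (f w p) p = w := by
    intro a b n w p hab hbn hw hp hp'
    obtain ⟨hpL, k, hk, hak, hkb⟩ := free_slot hp hp'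
    obtain ⟨h1, h2, h3⟩ := hf 1 (a, b) n w p hab hbn hw hp hp'
    have key : ∀ (s : Fin 3) (c d : ℕ), c ≤ d → d ≤ n → In s (c, d) k 1 →
        Step L s (c, d) w p (f w p) := fun s c d hcd hdn hI =>
      (hf s (c, d) n w p hcd hdn hw (mem_DD_of hpL hk hI) (notMem_OO_of hk)).2.1
    refine ⟨⟨hw, h1, hp, hp', ?_, ?_, ?_, ?_, ?_, ?_, ?_, ?_⟩, h3⟩
    · intro t ht
      have := (key 1 t b (ht.trans hab) hbn (Or.inr (Or.inl ⟨rfl, by simp; omega⟩))).m1
      rwa [up_one] at this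
    · intro t hbt htn
      have := (key 0 b t hbt htn (Or.inl ⟨rfl, by simp; omega⟩)).m2
      rwa [up_zero] at this
    · have := h2.dd 1
      rwa [up_one] at this
    · have := h2.os
      rwa [up_one] at this
    · intro c d hcd hda
      have := (key 2 c d hcd (by omega) (Or.inr (Or.inr ⟨rfl, by simp; omega⟩))).dd 1
      rwa [up_two] at this
    · intro c d hcd hda
      have := (key 2 c d hcd (by omega) (Or.inr (Or.inr ⟨rfl, by simp; omega⟩))).oo 1 (by decide)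
      rwa [up_two] at this
    · intro c d hbc hcd hdn
      have := (key 0 c d hcd hdn (Or.inl ⟨rfl, by simp; omega⟩)).dd 1
      rwa [up_zero] at this
    · intro c d hbc hcd hdn
      have := (key 0 c d hcd hdn (Or.inl ⟨rfl, by simp; omega⟩)).oo 1 (by decide)
      rwa [up_zero] at this
  refine ⟨f, g, first, ?_⟩
  intro a b n w' p hab hbn hw' hp
  have hp2 : p ∈ OO L 1 (up 1 (a, b)) w' := by rw [up_one]; exact hp
  obtain ⟨h1, h2, h3⟩ := hg 1 (a, b) n w' p hab hbn hw' hp2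
  have h4 := (first a b n (g w' p) p hab hbn h1 h2.mem h2.nm).1
  rw [h3] at h4
  exact ⟨h4, h3⟩

end

end Pool.Agent.N415.EY
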